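import Pool.Agent.Helper22.HE.Struct

/-!
MP_143e28_ag, project HM (helper22): a finite group `G` of Moebius transformations in characteristic 2 which preserves a set of `r` points, `r` even, has at most `r` elements, if the powers of 2
which divide `r` are at most 4 and `12 < r`.

If some point of `B` has a trivial stabilizer, its orbit (`#G` points, `card_orb_mul` in `Helper28/HA`) is contained in `B`.  Otherwise every point of `B` has a stabilizer with at least 2
elements.  All `uni` trivial: `tame_struct`: `#B ≤ 2`: no.  Otherwise let `P` be a point with `uni G P ≠ 1`; `wild_struct`: `q = 2 ^ j ≥ 2`, `a` odd; `B` (a union of orbits) is, up to `orb G P`, contained in one other orbit,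
of length `(q - 2) a + 2`, so `r` is `a`, `(q - 2) a + 2` or `a + (q - 2) a + 2`.  `q = 2`: `r` is `a`, `2` or `a + 2`: odd or `2`, no.  `q ≥ 4`, `a = 1`: `r` is `1`, `q` or `q + 1`: `r = q ≤ 4`, no.
`a = q + 1`: `r` is `q + 1`, `q (q - 1)` or `q ^ 2 + 1`: `r = q (q - 1)`, `q ∣ r`, so `q ≤ 4`, `r ≤ 12`, no.  (Compare `Helper28/HN/Bound2.lean`: `d_bound2`, and `Helper22/HE/ExpB.lean`.)
-/

set_option autoImplicit false

namespace Pool.Agent.Helper22.HM

open Pool.Agent.Helper28.HA Pool.Agent.Helper22.HE Pool.Agent.Helper22.HB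

theorem even_bound {k : Type*} [Field k] [IsAlgClosed k] [CharP k 2]
    (G : Subgroup (Equiv.Perm (OnePoint k))) [Finite G] (hG : MobGroup G) (B : Set (OnePoint k))
    (hB : B.Finite) (hGB : ∀ s ∈ G, ∀ P ∈ B, s P ∈ B) (hr : Even (Nat.card B)) (hr12 : 12 < Nat.card B)
    (h4 : ∀ e : ℕ, 2 ^ e ∣ Nat.card B → 2 ^ e ≤ 4) : Nat.card G ≤ Nat.card B := by
  classical
  have horb : ∀ Q ∈ B, orb G Q ⊆ B := by
    rintro Q hQ _ ⟨s, hs, rfl⟩
    exact hGB s hs Q hQ
  by_cases hst : ∀ Q ∈ B, 2 ≤ Nat.card (stab G Q)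
  swap
  · -- a point with trivial stabilizer
    push Not at hst
    obtain ⟨Q, hQB, hQ⟩ := hst
    have h1 := (card_orb_mul G Q).2
    have h2 : Nat.card (orb G Q) ≤ Nat.card B := by
      rw [Nat.card_coe_set_eq, Nat.card_coe_set_eq]
      exact Set.ncard_le_ncard (horb Q hQB) hB
    calc Nat.card G = Nat.card (orb G Q) * Nat.card (stab G Q) := h1.symm
      _ ≤ Nat.card (orb G Q) * 1 := Nat.mul_le_mul_left _ (by omega)
      _ ≤ Nat.card B := by rw [mul_one]; exact h2
  exfalso
  -- there is a parabolic element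
  obtain ⟨P0, hP0⟩ : ∃ P0, ∃ s ∈ uni G P0, s ≠ 1 := by
    by_contra hno
    push Not at hno
    have := (tame_struct G hG hno B hst).2
    omega
  obtain ⟨q, a, hq, ha, hq2, ⟨j, hqj⟩, haodd, hcase, hout⟩ := wild_struct G hG hP0
  have hj0 : 1 ≤ j := by
    by_contra h0
    have h00 : j = 0 := by omega
    rw [h00, pow_zero] at hqj
    omega
  have hqe : 2 ∣ q := by
    rw [hqj]
    exact dvd_pow_self 2 (by omega)
  obtain ⟨r, hqr⟩ := hqe
  obtain ⟨b, hab⟩ := haodd
  obtain ⟨u, hu⟩ := hr
  have hBne : ∃ Q, Q ∈ B := by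
    by_contra hno
    push Not at hno
    have h0 : B = ∅ := Set.eq_empty_iff_forall_notMem.2 hno
    rw [h0] at hr12
    simp at hr12
  have hqa : (q - 2) * a = 2 * ((r - 1) * a) := by
    rw [← mul_assoc]
    congr 1
    omega
  by_cases hPB : P0 ∈ B
  · have hWB : orb G P0 ⊆ B := horb P0 hPB
    by_cases hBW : B ⊆ orb G P0
    · -- `B = W`
      have hBe : B = orb G P0 := Set.Subset.antisymm hBW hWB
      rw [hBe, ← ha] at hu
      omega
    · obtain ⟨Q, hQB, hQW⟩ := Set.not_subset.1 hBW
      obtain ⟨hT, hT2⟩ := hout Q (hst Q hQB) hQW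
      have hWf : (orb G P0).Finite := hB.subset hWB
      have hTf : (orb G Q).Finite := hB.subset (horb Q hQB)
      have hdis : Disjoint (orb G P0) (orb G Q) := by
        rw [Set.disjoint_left]
        intro R h1 h2
        exact hQW (Wild_orb_trans G h1 (B6_orb_symm G h2))
      have hBu : B = orb G P0 ∪ orb G Q := by
        apply Set.Subset.antisymm
        · intro R hR
          by_cases hRW : R ∈ orb G P0
          · exact Or.inl hRW
          · exact Or.inr (hT2 R (hst R hR) hRW)
        · exact Set.union_subset hWB (horb Q hQB)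
      have hcard : Nat.card B = a + ((q - 2) * a + 2) := by
        rw [hBu, Nat.card_coe_set_eq, Set.ncard_union_eq hdis hWf hTf, ← Nat.card_coe_set_eq,
          ← Nat.card_coe_set_eq, ← ha, hT]
      omega
  · obtain ⟨Q, hQB⟩ := hBne
    have hnot : ∀ Q ∈ B, Q ∉ orb G P0 := by
      intro Q hQ hQ'
      exact hPB (horb Q hQ (B6_orb_symm G hQ'))
    obtain ⟨h1, h2⟩ := hout Q (hst Q hQB) (hnot Q hQB)
    have h3 : B = orb G Q :=
      Set.Subset.antisymm (fun Q' hQ' => h2 Q' (hst Q' hQ') (hnot Q' hQ')) (horb Q hQB)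
    have hcard : Nat.card B = (q - 2) * a + 2 := by
      rw [h3, h1]
    rcases hcase with h | h | ⟨h, -⟩
    · -- `q = 2`
      rw [hcard, h] at hr12
      omega
    · -- `a = 1`
      have h5 : Nat.card B = q := by
        rw [hcard, h]
        omega
      have h6 := h4 j (by rw [h5, hqj])
      rw [← hqj] at h6
      omega
    · -- `a = q + 1`
      have h5 : Nat.card B = q * (q - 1) := by
        rw [hcard, h]
        obtain ⟨t, rfl⟩ : ∃ t, q = t + 2 := ⟨q - 2, by omega⟩
        rw [Nat.add_sub_cancel, show t + 2 - 1 = t + 1 by omega]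
        ring
      have h6 := h4 j (by
        rw [h5, ← hqj]
        exact Dvd.intro _ rfl)
      rw [← hqj] at h6
      have h7 : q * (q - 1) ≤ 4 * 3 := Nat.mul_le_mul h6 (by omega)
      omega

end Pool.Agent.Helper22.HM
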