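import Pool.Agent.Helper22.HM.SpecM
import Pool.Agent.Helper22.HM.EvenB
import Pool.Agent.Helper54.HZ.Mem
import Pool.Agent.Helper54.HZ.Grp
import Pool.Agent.Helper28.HN.Mem
import Pool.Agent.Helper28.HN.Grp
import Pool.Agent.Helper28.HN.Kum
import Pool.Agent.Helper28.HN.Gen
import Pool.Agent.Helper28.HN.Bound2
import Pool.Agent.Helper22.HL.GenC

/-!
MP_143e28_ag, project HM (helper22): cyclic covers of odd prime degree and tame indecomposable maps, genus `4 l`, characteristic 2.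

`upperNM`: `n ≠ 2` (`char`); `r = Nat.card (BrN n f)`; `casesM`: `n = 3`, `r = 4 l + 2`, or `n = 5`, `r = 2 l + 2`.  `auto_memN` (`2 n < r`), `auto_groupN`, `mob_finite`, `finite_BrN`, `even_bound` with `pow4`: `#Aut ≤ n r ≤ 4 (4 l) + 4`.
`upperDM`: copy `d_upper2` of `Helper28/HN/Upper2.lean` with `g = 4 l` (`903` replaced by `4`) and `upperNM` in the place of `upperN2`.
`presN3`: `presC` with `n = 3` (`Helper22/HL/GenC.lean`) gives `PresN`: the same fields.
-/

set_option autoImplicit false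

namespace Pool.Agent.Helper22.HM

open Polynomial Pool.Agent.Helper28.HA Pool.Agent.Helper54.HY Pool.Agent.Helper54.HZ Pool.Agent.Helper28.HN Pool.Agent.Helper22.HL

theorem upperNM {k F : Type*} [Field k] [IsAlgClosed k] [CharP k 2] [Field F] [Algebra k F] {n l : ℕ}
    (hl : SpM l) {x y : F} {f : k[X]} (h : PresN k F n (4 * l) x y f) :
    Finite (F ≃ₐ[k] F) ∧ Nat.card (F ≃ₐ[k] F) ≤ 4 * (4 * l) + 4 := by
  have hl1 : 10000 < l := hl.2.2.2.2
  have hl0 : 0 < 4 * l := by omega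
  have hn2 : n ≠ 2 := by
    rintro rfl
    exact h.char (CharP.cast_eq_zero k 2)
  have hc := casesM hl h.prime hn2 h.genus
  have hr2 : Nat.card (BrN n f) = 4 * l + 2 ∨ Nat.card (BrN n f) = 2 * l + 2 := by
    rcases hc with ⟨-, h1⟩ | ⟨-, h1⟩
    · exact Or.inl h1
    · exact Or.inr h1
  have hr : 2 * n < Nat.card (BrN n f) := by
    rcases hc with ⟨h0, h1⟩ | ⟨h0, h1⟩ <;> omega
  have heven : Even (Nat.card (BrN n f)) := by
    rw [Nat.even_iff]
    rcases hr2 with h1 | h1 <;> omega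
  have hbd : n * Nat.card (BrN n f) ≤ 4 * (4 * l) + 4 := by
    rcases hc with ⟨h0, h1⟩ | ⟨h0, h1⟩
    · rw [h1, h0]
      omega
    · rw [h1, h0]
      omega
  obtain ⟨G, hG, hGB, hGc⟩ := auto_groupN hl0 h (fun s => auto_memN hl0 h hr s)
  have hB := finite_BrN n h.ne0
  obtain ⟨hGf, -⟩ := mob_finite G hG (BrN n f) hB (by omega) hGB
  obtain ⟨h3, h4⟩ := hGc hGf
  haveI := hGf
  have h5 := even_bound G hG (BrN n f) hB hGB heven (by omega) (fun e he => pow4 hl hr2 e he)
  exact ⟨h3, h4.trans ((Nat.mul_le_mul_left n h5).trans hbd)⟩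

theorem upperDM {k F : Type*} [Field k] [IsAlgClosed k] [CharP k 2] [Field F] [Algebra k F]
    {l n Q : ℕ} (hl : SpM l)
    (hQ : ∀ e v : ℕ, v < n → 2 ^ e ∣ 2 * (4 * l) + 2 * n - 2 - v → 2 ^ e ≤ Q)
    (hbig : n ^ 2 * (1 + 3 * Q + 2 * Q ^ 2) < 4 * l) {x : F} (h : PresD k F 2 n (4 * l) x) :
    Finite (F ≃ₐ[k] F) ∧ Nat.card (F ≃ₐ[k] F) ≤ 4 * (4 * l) + 4 := by
  have hn2 : 2 ≤ n := h.two
  have hQ1 : 1 ≤ Q := by
    have h0 := hQ 0 0 (by omega) (by simp)
    simpa using h0
  have hgn : (n - 1) ^ 2 < 4 * l := by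
    have e1 : (n - 1) ^ 2 ≤ n ^ 2 := Nat.pow_le_pow_left (Nat.sub_le n 1) 2
    have e2 : n ^ 2 * 1 ≤ n ^ 2 * (1 + 3 * Q + 2 * Q ^ 2) := Nat.mul_le_mul_left _ (by omega)
    omega
  have hmem : ∀ s : F ≃ₐ[k] F, s x ∈ IntermediateField.adjoin k {x} := fun s => d_mem hgn h s
  by_cases hker : ∀ s : F ≃ₐ[k] F, s x = x → s = 1
  · obtain ⟨G, hG, hw, hfin⟩ := d_group n h.trans hmem hker
    -- the support of the weight
    have hsupp : (Function.support (ramD n h.trans)).Finite := by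
      by_contra hinf
      have := h.genus
      rw [finsum_of_infinite_support hinf] at this
      omega
    have hcard : 3 ≤ Nat.card (Function.support (ramD n h.trans)) := by
      have e1 := h.genus
      rw [finsum_eq_sum_of_support_subset (ramD n h.trans) (s := hsupp.toFinset) (by simp)] at e1
      have e2 : ∑ P ∈ hsupp.toFinset, ramD n h.trans P ≤ ∑ _P ∈ hsupp.toFinset, (n - 1) :=
        Finset.sum_le_sum (fun P _ => ramD_le n h.trans P)
      rw [Finset.sum_const, smul_eq_mul] at e2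
      have e3 : Nat.card (Function.support (ramD n h.trans)) = hsupp.toFinset.card := by
        rw [Nat.card_coe_set_eq, Set.ncard_eq_toFinset_card _ hsupp]
      by_contra hlt
      have e4 : hsupp.toFinset.card * (n - 1) ≤ 2 * (n - 1) := Nat.mul_le_mul_right _ (by omega)
      have e5 : 10000 < l := hl.2.2.2.2
      omega
    obtain ⟨hGf, -⟩ := mob_finite G hG (Function.support (ramD n h.trans)) hsupp hcard (by
      intro s hs P hP
      simp only [Function.mem_support] at hP ⊢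
      rw [hw s hs P]
      exact hP)
    obtain ⟨ha, hb⟩ := hfin hGf
    haveI := hGf
    refine ⟨ha, (hb.trans (d_bound2 G hG (ramD n h.trans) hw n (4 * l) Q hn2 (fun P => ?_) h.genus
      hQ hbig)).trans (by omega)⟩
    have := ramD_le n h.trans P
    omega
  · push Not at hker
    obtain ⟨s, hsx, hs1⟩ := hker
    obtain ⟨hnp, y, f, hgen, hf, hm, hy, hyx⟩ := d_kum h.two h.char h.trans h.deg h.simple s hs1 hsx
    have hP := d_gen hnp h hgen hf hm hy hyx
    exact upperNM hl hP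

theorem presN_of_C {k F : Type*} [Field k] [Field F] [Algebra k F] {n g : ℕ} (hn : n.Prime) {x y : F}
    {f : k[X]} (h : PresC k F n g x y f) : PresN k F n g x y f :=
  ⟨hn, h.char, h.trans, h.gen, h.ne0, h.mult, h.eqn, h.genus⟩

end Pool.Agent.Helper22.HM
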