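import Pool.Agent.Helper22.HL.Defs
import Pool.Agent.Helper28.HN.Cls

/-!
MP_143e28_ag, project HM (helper22): characteristic 2, a class of curves for which the polynomial is `4 T + 4`.  Definitions.
-/

set_option autoImplicit false

namespace Pool.Agent.Helper22.HM

open Polynomial Pool.Agent.Helper54.HY Pool.Agent.Helper54.HZ Pool.Agent.Helper28.HN Pool.Agent.Helper22.HL

/-- `F` is the function field of a curve of genus `g` over `k` (of characteristic `p`) which is a Galois cover of the line of
prime degree `n ∈ S`, or has a tame indecomposable map of degree `n ∈ S`, `n ≤ N`, `n` not divisible by `p`, to the line, or is a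
curve `y ^ q - y = f (x)` with `q` a power of `p` and `f` a polynomial -/
def IsExt (k F : Type*) [Field k] [Field F] [Algebra k F] (p : ℕ) (S : Set ℕ) (N g : ℕ) : Prop :=
  IsPrm k F p S N g ∨ ∃ (s : ℕ) (x y : F) (f : k[X]), PresE k F p s g x y f

/-- the supremum (in `ℕ ∪ {∞}`) of the numbers of automorphisms of these curves -/
noncomputable def muExt.{u} (k : Type u) [Field k] (p : ℕ) (S : Set ℕ) (N g : ℕ) : ℕ∞ :=
  sSup {n : ℕ∞ | ∃ (F : Type u) (_ : Field F) (_ : Algebra k F),
    IsExt k F p S N g ∧ n = ENat.card (F ≃ₐ[k] F)}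

/-- the special primes: the genera are `4 l` -/
def SpM (l : ℕ) : Prop :=
  l.Prime ∧ l % 4 = 1 ∧ l % 3 = 1 ∧ l % 5 = 1 ∧ 10000 < l

end Pool.Agent.Helper22.HM
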