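import Pool.Agent.Helper28.HN.Cls
import Pool.Agent.Helper54.HW.Cls

/-!
MP_143e28_ag, project HM (helper22): the class of curves, with all curves `y ^ q - y = f (x)`, `f` rational.
-/

set_option autoImplicit false

namespace Pool.Agent.Helper22.HM

open Pool.Agent.Helper28.HN Pool.Agent.Helper54.HW

/-- `F` is the function field of a curve of genus `g` over `k` (of characteristic `p`) which is a Galois cover of the line of
prime degree `n ∈ S`, or has a tame indecomposable map of degree `n ∈ S`, `n ≤ N`, `n` not divisible by `p`, to the line, or is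
a curve `y ^ q - y = f (x)`, `q > 1` a power of `p`, `f` a rational function, all pole orders prime to `p` -/
def IsExtQ (k F : Type*) [Field k] [Field F] [Algebra k F] (p : ℕ) (S : Set ℕ) (N g : ℕ) : Prop :=
  IsPrm k F p S N g ∨ ∃ (s : ℕ) (x y : F) (f : RatFunc k), PresQ k F p s g x y f

/-- the supremum (in `ℕ ∪ {∞}`) of the numbers of automorphisms of these curves -/
noncomputable def muExtQ.{u} (k : Type u) [Field k] (p : ℕ) (S : Set ℕ) (N g : ℕ) : ℕ∞ :=
  sSup {n : ℕ∞ | ∃ (F : Type u) (_ : Field F) (_ : Algebra k F),
    IsExtQ k F p S N g ∧ n = ENat.card (F ≃ₐ[k] F)}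

end Pool.Agent.Helper22.HM
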