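import Pool.Agent.Helper22.HM.HypMU
import Pool.Agent.Helper22.HM.CycM
import Pool.Agent.Helper22.HL.ManyA
import Pool.Agent.Helper22.HL.ManyC
import Pool.Agent.Helper22.HL.ManyE
import Pool.Agent.Helper22.HL.GenA
import Pool.Agent.Helper22.HL.GenC
import Pool.Agent.Helper22.HL.Arith

/-!
MP_143e28_ag, project HM (helper22): assembly.
-/

set_option autoImplicit false

namespace Pool.Agent.Helper22.HM

open Polynomial Pool.Agent.Helper54.HY Pool.Agent.Helper54.HZ Pool.Agent.Helper28.HN Pool.Agent.Helper22.HL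
  Pool.Agent.Helper22.HB Pool.Agent.Helper22.HE

theorem lowM.{u} (k : Type u) [Field k] [IsAlgClosed k] [CharP k 2] {g : ℕ} (hg : 2 ≤ g) (S : Set ℕ)
    (hS : 2 ∈ S) (hS3 : 3 ∈ S) (N : ℕ) : ((4 * g + 4 : ℕ) : ℕ∞) ≤ muExt k 2 S N g := by
  rcases Nat.even_or_odd g with hev | hodd
  · have ha : Odd (g + 1) := hev.add_one
    obtain ⟨F, i1, i2, x, y, hx, hgen, he⟩ := exists_field k _ _ (irrA (k := k) ha)
    have h1 := manyA ha hx hgen he
    have h2 := presA ha hx hgen he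
    rw [Nat.add_sub_cancel] at h2
    have e : 4 * (g + 1) = 4 * g + 4 := by ring
    rw [e] at h1
    exact h1.trans (le_sSup ⟨F, i1, i2, Or.inl (Or.inl (Or.inr ⟨hS, x, y, _, h2⟩)), rfl⟩)
  · by_cases h3 : 3 ∣ g
    · obtain ⟨c, rfl⟩ := h3
      have hm : Odd (2 * c + 1) := odd_two_mul_add_one c
      obtain ⟨F, i1, i2, x, y, hx, hgen, he⟩ :=
        exists_field k _ _ (irrE (k := k) (s := 2) (m := 2 * c + 1) (by omega) (by omega))
      have h5 := manyE (s := 2) (by omega) hm hx hgen he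
      have hdeg : (X ^ (2 * c + 1) : k[X]).natDegree = 2 * c + 1 := natDegree_X_pow _
      have h6 : PresE k F 2 2 (3 * c) x y (X ^ (2 * c + 1)) := by
        refine ⟨by omega, hx, hgen, ?_, ?_, ?_⟩
        · rw [hdeg]
          exact (Nat.coprime_two_left).2 hm
        · rw [rat_poly] at he
          rw [← he]
          simp
        · rw [hdeg]
          simp only [Nat.add_sub_cancel]
          ring
      refine le_trans ?_ (h5.trans (le_sSup ⟨F, i1, i2, Or.inr ⟨2, x, y, _, h6⟩, rfl⟩))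
      exact_mod_cast (by omega : 4 * (3 * c) + 4 ≤ 2 ^ 2 * ((2 ^ 2 - 1) * (2 * c + 1)))
    · have hc : Nat.Coprime g (2 * g / g + 1) := by
        rw [Nat.mul_div_cancel _ (by omega)]
        exact ((Nat.Prime.coprime_iff_not_dvd Nat.prime_three).2 h3).symm
      have e3 : 2 * g / g + 1 = 3 := by rw [Nat.mul_div_cancel _ (by omega)]
      obtain ⟨h1, h2, h3', h4⟩ := deg_data hg hodd dvd_rfl
      obtain ⟨j, t, hj0, hjn, hj, ht⟩ := exists_j h1 h2 hc.symm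
      rw [e3] at h1 h2 h3' h4 hj hjn ht
      obtain ⟨F, i1, i2, x, y, hx, hgen, he⟩ :=
        exists_field k _ _ (irrC (k := k) (n := 3) (a := g) (j := j) (by omega) hodd)
      have h5 := manyC h1 hodd hj ht hx hgen he
      have h6 := presN_of_C Nat.prime_three (presC h1 h2 hodd hj0 hjn hj ht h3' hx hgen he)
      refine le_trans ?_ (h5.trans (le_sSup
        ⟨F, i1, i2, Or.inl (Or.inl (Or.inl ⟨3, hS3, x, y, _, h6⟩)), rfl⟩))
      exact_mod_cast (by omega : 4 * g + 4 ≤ 2 * (3 * g))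

/-- the special genera are `4 l` -/
def SpMN (N l : ℕ) : Prop :=
  SpM l ∧ N ^ 2 * (1 + 3 * (2 * N + 8) + 2 * (2 * N + 8) ^ 2) < 4 * l ∧
    ∀ n : ℕ, 2 ≤ n → n ≤ N → ∀ e v : ℕ, v < n → 2 ^ e ∣ 2 * (4 * l) + 2 * n - 2 - v →
      2 ^ e ≤ 2 * N + 8

theorem inf_spMN (N : ℕ) : {l : ℕ | SpMN N l}.Infinite := by
  rw [Set.infinite_iff_exists_gt]
  intro M
  obtain ⟨l, h1, h2, h3⟩ := infM N
    (max M (N ^ 2 * (1 + 3 * (2 * N + 8) + 2 * (2 * N + 8) ^ 2)))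
  have h4 := lt_of_le_of_lt (le_max_right _ _) h1
  exact ⟨l, ⟨h2, by omega, h3⟩, lt_of_le_of_lt (le_max_left _ _) h1⟩

theorem upM {k F : Type*} [Field k] [IsAlgClosed k] [CharP k 2] [Field F] [Algebra k F] {N l : ℕ}
    (hl : SpMN N l) {S : Set ℕ} (h : IsExt k F 2 S N (4 * l)) :
    Finite (F ≃ₐ[k] F) ∧ Nat.card (F ≃ₐ[k] F) ≤ 4 * (4 * l) + 4 := by
  obtain ⟨h1, h2, h3⟩ := hl
  rcases h with ((⟨n, -, x, y, f, hF⟩ | ⟨-, x, y, f, hF⟩) | ⟨n, -, hn, x, hF⟩) | ⟨s, x, y, f, hF⟩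
  · exact upperNM h1 hF
  · exact upperM h1 ⟨x, y, f.num, f.denom, pres2_of_as hF⟩
  · refine upperDM h1 (h3 n hF.two hn) ?_ hF
    refine lt_of_le_of_lt ?_ h2
    exact Nat.mul_le_mul_right _ (Nat.pow_le_pow_left hn 2)
  · exact upperM h1 (hyp_of_E h1 hF)

theorem exactM.{u} (k : Type u) [Field k] [IsAlgClosed k] [CharP k 2] {N l : ℕ} (hl : SpMN N l)
    (S : Set ℕ) (hS : 2 ∈ S) (hS3 : 3 ∈ S) :
    muExt k 2 S N (4 * l) = ((4 * (4 * l) + 4 : ℕ) : ℕ∞) := by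
  refine le_antisymm ?_ (lowM k (by have := hl.1.2.2.2.2; omega) S hS hS3 N)
  unfold muExt
  refine sSup_le ?_
  rintro n ⟨F, _, _, hF, rfl⟩
  obtain ⟨ha, hb⟩ := upM hl hF
  rw [ENat.card_eq_coe_natCard]
  exact_mod_cast hb

theorem mainM.{u} (k : Type u) [Field k] [IsAlgClosed k] [CharP k 2] (S : Set ℕ) (hS : 2 ∈ S)
    (hS3 : 3 ∈ S) (N : ℕ) (M : ℚ[X]) :
    ((∀ g : ℕ, 2 ≤ g → ∀ m : ℕ, muExt k 2 S N g = m → M.eval (g : ℚ) ≤ m) ∧
      {g : ℕ | 2 ≤ g ∧ ∃ m : ℕ, muExt k 2 S N g = m ∧ M.eval (g : ℚ) = m}.Infinite) ↔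
    M = C 4 * X + C 4 := by
  have hsp : {g : ℕ | 2 ≤ g ∧ muExt k 2 S N g = ((4 * g + 4 : ℕ) : ℕ∞)}.Infinite := by
    have h2 : (fun l : ℕ => 4 * l) '' {l : ℕ | SpMN N l} ⊆
        {g : ℕ | 2 ≤ g ∧ muExt k 2 S N g = ((4 * g + 4 : ℕ) : ℕ∞)} := by
      rintro _ ⟨l, hl, rfl⟩
      exact ⟨by have := hl.1.2.2.2.2; dsimp only; omega, exactM k hl S hS hS3⟩
    refine Set.Infinite.mono h2 ((inf_spMN N).image ?_)
    intro a _ b _ hab
    dsimp only at hab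
    omega
  constructor
  · rintro ⟨hM1, hM2⟩
    by_contra hne
    refine sign_aux (M - (C 4 * X + C 4)) (sub_ne_zero.mpr hne) _ _ hsp hM2 ?_ ?_
    · rintro g ⟨h1, h2⟩
      have e1 := hM1 g h1 (4 * g + 4) h2
      rw [eval_sub, eval_add, eval_mul, eval_C, eval_X]
      push_cast at e1
      linarith
    · rintro g ⟨hg, m, hm, hM⟩
      have e1 := lowM k hg S hS hS3 N
      rw [hm] at e1
      have e2 : 4 * g + 4 ≤ m := by exact_mod_cast e1
      have e3 : ((4 * g + 4 : ℕ) : ℚ) ≤ m := by exact_mod_cast e2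
      push_cast at e3
      rw [eval_sub, eval_add, eval_mul, eval_C, eval_X, hM]
      linarith
  · rintro rfl
    refine ⟨?_, ?_⟩
    · intro g hg m hm
      have e1 := lowM k hg S hS hS3 N
      rw [hm] at e1
      have e2 : 4 * g + 4 ≤ m := by exact_mod_cast e1
      have e3 : ((4 * g + 4 : ℕ) : ℚ) ≤ m := by exact_mod_cast e2
      push_cast at e3
      rw [eval_add, eval_mul, eval_C, eval_X]
      exact e3
    · refine hsp.mono ?_
      rintro g ⟨h1, h2⟩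
      refine ⟨h1, 4 * g + 4, h2, ?_⟩
      rw [eval_add, eval_mul, eval_C, eval_X]
      push_cast
      ring

end Pool.Agent.Helper22.HM
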