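import Pool.Agent.Helper22.HM.Fin
import Pool.Agent.Helper22.HM.Defs2
import Pool.Agent.Helper54.HW.Low2

/-!
MP_143e28_ag, project HM (helper22): assembly for the class with all curves `y ^ q - y = f (x)`, `f` rational.
-/

set_option autoImplicit false

namespace Pool.Agent.Helper22.HM

open Polynomial Pool.Agent.Helper54.HY Pool.Agent.Helper54.HZ Pool.Agent.Helper28.HN Pool.Agent.Helper22.HL
  Pool.Agent.Helper22.HB Pool.Agent.Helper22.HE Pool.Agent.Helper54.HW

theorem lowQM.{u} (k : Type u) [Field k] [IsAlgClosed k] [CharP k 2] {g : ℕ}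
    (hg : 2 ≤ g) (S : Set ℕ) (hS : 2 ∈ S) (hS3 : 3 ∈ S) (N : ℕ) :
    ((4 * g + 4 : ℕ) : ℕ∞) ≤ muExtQ k 2 S N g := by
  rcases Nat.even_or_odd g with hev | hodd
  · have ha : Odd (g + 1) := hev.add_one
    obtain ⟨F, i1, i2, x, y, hx, hgen, he⟩ := exists_field k _ _ (irrA (k := k) ha)
    have h1 := manyA ha hx hgen he
    have h2 := presA ha hx hgen he
    rw [Nat.add_sub_cancel] at h2
    have e : 4 * (g + 1) = 4 * g + 4 := by ring
    rw [e] at h1
    exact h1.trans (le_sSup ⟨F, i1, i2, Or.inl (Or.inl (Or.inr ⟨hS, x, y, _, h2⟩)), rfl⟩)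
  · by_cases h3 : 3 ∣ g
    · obtain ⟨c, rfl⟩ := h3
      have hm : Odd (2 * c + 1) := odd_two_mul_add_one c
      obtain ⟨F, i1, i2, x, y, hx, hgen, he⟩ :=
        exists_field k _ _ (irrE (k := k) (s := 2) (m := 2 * c + 1) (by omega) (by omega))
      have h5 := manyE (s := 2) (by omega) hm hx hgen he
      have h6 : PresQ k F 2 2 (3 * c) x y (algebraMap k[X] (RatFunc k) (X ^ (2 * c + 1))) := by
        refine ⟨by omega, hx, hgen, ?_, ?_, ?_⟩
        · intro P hP hd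
          obtain ⟨rfl, -⟩ := (Low2_ord P).1 hP
          rw [Low2_inf] at hd
          push_cast at hd
          omega
        · rw [rat_poly] at he
          rw [RatFunc.num_algebraMap, RatFunc.denom_algebraMap]
          rw [← he]
          simp
        · rw [Low2_sum (by omega)]
          push_cast
          ring
      refine le_trans ?_ (h5.trans (le_sSup ⟨F, i1, i2, Or.inr ⟨2, x, y, _, h6⟩, rfl⟩))
      exact_mod_cast (by omega : 4 * (3 * c) + 4 ≤ 2 ^ 2 * ((2 ^ 2 - 1) * (2 * c + 1)))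
    · have hc : Nat.Coprime g (2 * g / g + 1) := by
        rw [Nat.mul_div_cancel _ (by omega)]
        exact ((Nat.Prime.coprime_iff_not_dvd Nat.prime_three).2 h3).symm
      have e3 : 2 * g / g + 1 = 3 := by rw [Nat.mul_div_cancel _ (by omega)]
      obtain ⟨h1, h2, h3', h4⟩ := deg_data hg hodd dvd_rfl
      obtain ⟨j, t, hj0, hjn, hj, ht⟩ := exists_j h1 h2 hc.symm
      rw [e3] at h1 h2 h3' h4 hj hjn ht
      obtain ⟨F, i1, i2, x, y, hx, hgen, he⟩ :=
        exists_field k _ _ (irrC (k := k) (n := 3) (a := g) (j := j) (by omega) hodd)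
      have h5 := manyC h1 hodd hj ht hx hgen he
      have h6 := presN_of_C Nat.prime_three (presC h1 h2 hodd hj0 hjn hj ht h3' hx hgen he)
      refine le_trans ?_ (h5.trans (le_sSup
        ⟨F, i1, i2, Or.inl (Or.inl (Or.inl ⟨3, hS3, x, y, _, h6⟩)), rfl⟩))
      exact_mod_cast (by omega : 4 * g + 4 ≤ 2 * (3 * g))

theorem upQM {k F : Type*} [Field k] [IsAlgClosed k] [CharP k 2] [Field F] [Algebra k F] {N l : ℕ}
    (hl : SpMN N l) {S : Set ℕ} (h : IsExtQ k F 2 S N (4 * l)) :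
    Finite (F ≃ₐ[k] F) ∧ Nat.card (F ≃ₐ[k] F) ≤ 4 * (4 * l) + 4 := by
  rcases h with h | ⟨s, x, y, f, hF⟩
  · exact upM hl (Or.inl h)
  · have hs := hF.pos
    rcases Nat.lt_or_ge 1 s with h2 | h1
    · exfalso
      have e1 : ((2 : ℤ) ^ s - 1) ∣ 2 * ((4 * l : ℕ) : ℤ) := by
        have := hF.genus
        rw [← this]
        push_cast
        exact dvd_mul_right _ _
      have e3 : (((2 ^ s - 1 : ℕ) : ℤ)) ∣ ((2 * (4 * l) : ℕ) : ℤ) := by
        rw [Nat.cast_sub (Nat.one_le_pow _ _ (by norm_num))]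
        push_cast
        push_cast at e1
        exact e1
      obtain ⟨c, hc⟩ := Int.natCast_dvd_natCast.1 e3
      have hq : 4 ≤ 2 ^ s := by
        calc 4 = 2 ^ 2 := by norm_num
          _ ≤ 2 ^ s := Nat.pow_le_pow_right (by norm_num) h2
      exact no_qM hl.1 hq rfl hc
    · obtain rfl : s = 1 := by omega
      refine upperM hl.1 ⟨x, y, f.num, f.denom,
        pres2_of_as (f := f) ⟨hF.trans, hF.gen, hF.poles, ?_, ?_⟩⟩
      · have := hF.eqn
        rwa [pow_one] at this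
      · have := hF.genus
        rwa [pow_one] at this

theorem exactQM.{u} (k : Type u) [Field k] [IsAlgClosed k] [CharP k 2] {N l : ℕ} (hl : SpMN N l)
    (S : Set ℕ) (hS : 2 ∈ S) (hS3 : 3 ∈ S) :
    muExtQ k 2 S N (4 * l) = ((4 * (4 * l) + 4 : ℕ) : ℕ∞) := by
  refine le_antisymm ?_ (lowQM k (by have := hl.1.2.2.2.2; omega) S hS hS3 N)
  unfold muExtQ
  refine sSup_le ?_
  rintro n ⟨F, _, _, hF, rfl⟩
  obtain ⟨ha, hb⟩ := upQM hl hF
  rw [ENat.card_eq_coe_natCard]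
  exact_mod_cast hb

theorem mainQM.{u} (k : Type u) [Field k] [IsAlgClosed k] [CharP k 2] (S : Set ℕ) (hS : 2 ∈ S)
    (hS3 : 3 ∈ S) (N : ℕ) (M : ℚ[X]) :
    ((∀ g : ℕ, 2 ≤ g → ∀ m : ℕ, muExtQ k 2 S N g = m → M.eval (g : ℚ) ≤ m) ∧
      {g : ℕ | 2 ≤ g ∧ ∃ m : ℕ, muExtQ k 2 S N g = m ∧ M.eval (g : ℚ) = m}.Infinite) ↔
    M = C 4 * X + C 4 := by
  have hsp : {g : ℕ | 2 ≤ g ∧ muExtQ k 2 S N g = ((4 * g + 4 : ℕ) : ℕ∞)}.Infinite := by
    have h2 : (fun l : ℕ => 4 * l) '' {l : ℕ | SpMN N l} ⊆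
        {g : ℕ | 2 ≤ g ∧ muExtQ k 2 S N g = ((4 * g + 4 : ℕ) : ℕ∞)} := by
      rintro _ ⟨l, hl, rfl⟩
      exact ⟨by have := hl.1.2.2.2.2; dsimp only; omega, exactQM k hl S hS hS3⟩
    refine Set.Infinite.mono h2 ((inf_spMN N).image ?_)
    intro a _ b _ hab
    dsimp only at hab
    omega
  constructor
  · rintro ⟨hM1, hM2⟩
    by_contra hne
    refine sign_aux (M - (C 4 * X + C 4)) (sub_ne_zero.mpr hne) _ _ hsp hM2 ?_ ?_
    · rintro g ⟨h1, h2⟩
      have e1 := hM1 g h1 (4 * g + 4) h2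
      rw [eval_sub, eval_add, eval_mul, eval_C, eval_X]
      push_cast at e1
      linarith
    · rintro g ⟨hg, m, hm, hM⟩
      have e1 := lowQM k hg S hS hS3 N
      rw [hm] at e1
      have e2 : 4 * g + 4 ≤ m := by exact_mod_cast e1
      have e3 : ((4 * g + 4 : ℕ) : ℚ) ≤ m := by exact_mod_cast e2
      push_cast at e3
      rw [eval_sub, eval_add, eval_mul, eval_C, eval_X, hM]
      linarith
  · rintro rfl
    refine ⟨?_, ?_⟩
    · intro g hg m hm
      have e1 := lowQM k hg S hS hS3 N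
      rw [hm] at e1
      have e2 : 4 * g + 4 ≤ m := by exact_mod_cast e1
      have e3 : ((4 * g + 4 : ℕ) : ℚ) ≤ m := by exact_mod_cast e2
      push_cast at e3
      rw [eval_add, eval_mul, eval_C, eval_X]
      exact e3
    · refine hsp.mono ?_
      rintro g ⟨h1, h2⟩
      refine ⟨h1, 4 * g + 4, h2, ?_⟩
      rw [eval_add, eval_mul, eval_C, eval_X]
      push_cast
      ring

end Pool.Agent.Helper22.HM
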