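import Pool.Agent.Helper22.HM.Defs

/-!
MP_143e28_ag, project HM (helper22): elementary number theory of the special genera `4 l`.

`casesM`: `n - 1` is an even divisor of `8 l` (`n` odd prime), so `n - 1 ∈ {2, 4, 8, 2 l, 4 l, 8 l}`; `9`, `2 l + 1`, `8 l + 1` are divisible by 3 (`l = 1` modulo 3), `4 l + 1` by 5.
`no_qM`: `q - 1` is odd and divides `8 l`, so it is `1` or `l`; `q - 1 = 3` modulo 4, but `l = 1` modulo 4.
`pow4`: `2 l + 2 = 4` modulo 8 and `4 l + 2 = 2` modulo 4.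
`infM`: Chinese remainder theorem and Dirichlet (copy `specialD2` of `Helper28/HN/Dir2.lean`): `Q = 2 N + 8 < 2 ^ Q`; `K = Q`; `l` prime, `l = 1` modulo `2 ^ (K + 3) * 15`, `l` large.  Let
`2 ^ e ∣ X = 2 (4 l) + 2 n - 2 - v`, `v < n ≤ N`: `X = Y` modulo `2 ^ K` with `Y = 8 + (2 n - 2 - v)`, `1 ≤ Y ≤ 2 N + 6`.  `e ≥ K`: `2 ^ K ∣ Y`, no; `e < K`: `2 ^ e ∣ Y`, so `2 ^ e ≤ Q`.
-/

set_option autoImplicit false

namespace Pool.Agent.Helper22.HM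

theorem casesM {l n r : ℕ} (hl : SpM l) (hn : n.Prime) (hn2 : n ≠ 2) (h : (n - 1) * (r - 2) = 2 * (4 * l)) :
    (n = 3 ∧ r = 4 * l + 2) ∨ (n = 5 ∧ r = 2 * l + 2) := by
  obtain ⟨hlp, h4, h3, h5, hbig⟩ := hl
  have hn1 := hn.one_lt
  have hodd : n % 2 = 1 := (hn.eq_two_or_odd).resolve_left hn2
  obtain ⟨m, rfl⟩ : ∃ m, n = m + 1 := ⟨n - 1, by omega⟩
  rw [Nat.add_sub_cancel] at h
  have hme : m % 2 = 0 := by omega
  by_cases hln : l ∣ m
  · exfalso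
    obtain ⟨d, rfl⟩ := hln
    have hd : d * (r - 2) = 8 := by
      apply Nat.eq_of_mul_eq_mul_left hlp.pos
      rw [← Nat.mul_assoc, h]
      ring
    have hd8 : d ∣ 8 := ⟨r - 2, hd.symm⟩
    have hdle : d ≤ 8 := Nat.le_of_dvd (by norm_num) hd8
    have hd0 : 0 < d := Nat.pos_of_dvd_of_pos hd8 (by norm_num)
    have hcase : d = 1 ∨ d = 2 ∨ d = 4 ∨ d = 8 := by
      clear hd h hme hodd hn hn2 hn1
      interval_cases d <;> simp_all <;> revert hd8 <;> decide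
    rcases hcase with rfl | rfl | rfl | rfl
    · omega
    · have h6 : 3 ∣ l * 2 + 1 := by omega
      have := (Nat.prime_dvd_prime_iff_eq Nat.prime_three hn).1 h6
      omega
    · have h6 : 5 ∣ l * 4 + 1 := by omega
      have := (Nat.prime_dvd_prime_iff_eq Nat.prime_five hn).1 h6
      omega
    · have h6 : 3 ∣ l * 8 + 1 := by omega
      have := (Nat.prime_dvd_prime_iff_eq Nat.prime_three hn).1 h6
      omega
  · have hcop : Nat.Coprime m l := ((Nat.Prime.coprime_iff_not_dvd hlp).2 hln).symm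
    have hd9 : m ∣ 8 * l := ⟨r - 2, by rw [h]; ring⟩
    have hd8 : m ∣ 8 := hcop.dvd_of_dvd_mul_right hd9
    clear hd9
    have hmle : m ≤ 8 := Nat.le_of_dvd (by norm_num) hd8
    have hm0 : 0 < m := by omega
    have hcase : m = 2 ∨ m = 4 ∨ m = 8 := by
      clear h hcop hln hodd hn hn2 hn1
      interval_cases m <;> simp_all <;> revert hd8 <;> decide
    rcases hcase with rfl | rfl | rfl
    · left
      refine ⟨rfl, ?_⟩
      omega
    · right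
      refine ⟨rfl, ?_⟩
      omega
    · exfalso
      exact absurd hn (by norm_num)

theorem no_qM {l q j c : ℕ} (hl : SpM l) (hq4 : 4 ≤ q) (hq : q = 2 ^ j) (h : 2 * (4 * l) = (q - 1) * c) :
    False := by
  obtain ⟨hlp, h4, -, -, hbig⟩ := hl
  have hj : 2 ≤ j := by
    by_contra hj
    have h1 : 2 ^ j ≤ 2 ^ 1 := Nat.pow_le_pow_right (by norm_num) (by omega)
    rw [← hq] at h1
    omega
  have hq4' : q % 4 = 0 := by
    have : 2 ^ 2 ∣ 2 ^ j := pow_dvd_pow 2 hj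
    rw [← hq] at this
    omega
  have hdvd : (q - 1) ∣ 8 * l := ⟨c, by rw [← h]; ring⟩
  have hcop : Nat.Coprime (q - 1) 8 := by
    have h2 : Nat.Coprime (q - 1) 2 := by
      rw [Nat.coprime_comm, Nat.Prime.coprime_iff_not_dvd Nat.prime_two]
      omega
    have h3 : Nat.Coprime (q - 1) (2 ^ 3) := h2.pow_right 3
    exact h3
  have hd : (q - 1) ∣ l := hcop.dvd_of_dvd_mul_left hdvd
  rcases (Nat.dvd_prime hlp).1 hd with h5 | h5 <;> omega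

theorem pow4 {l r : ℕ} (hl : SpM l) (hr : r = 4 * l + 2 ∨ r = 2 * l + 2) (e : ℕ) (h : 2 ^ e ∣ r) :
    2 ^ e ≤ 4 := by
  obtain ⟨hlp, h4, -, -, hbig⟩ := hl
  by_contra hc
  have he : 3 ≤ e := by
    by_contra he
    have h1 : 2 ^ e ≤ 2 ^ 2 := Nat.pow_le_pow_right (by norm_num) (by omega)
    omega
  have h8 : 2 ^ 3 ∣ r := (pow_dvd_pow 2 he).trans h
  rcases hr with rfl | rfl <;> omega

theorem infM (N M : ℕ) :
    ∃ l : ℕ, M < l ∧ SpM l ∧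
      ∀ n : ℕ, 2 ≤ n → n ≤ N → ∀ e v : ℕ, v < n → 2 ^ e ∣ 2 * (4 * l) + 2 * n - 2 - v →
        2 ^ e ≤ 2 * N + 8 := by
  obtain ⟨K, hK⟩ : ∃ K, K = 2 * N + 8 := ⟨_, rfl⟩
  have hq : NeZero (2 ^ (K + 3) * 15) :=
    ⟨Nat.mul_ne_zero (pow_ne_zero _ (by norm_num)) (by norm_num)⟩
  have hu : IsUnit ((1 : ℕ) : ZMod (2 ^ (K + 3) * 15)) :=
    (ZMod.isUnit_iff_coprime 1 (2 ^ (K + 3) * 15)).2 (Nat.coprime_one_left _)
  obtain ⟨l, hl1, hl2, hl3⟩ := Nat.forall_exists_prime_gt_and_eq_mod hu (max M 10000)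
  have h4 : l ≡ 1 [MOD 2 ^ (K + 3) * 15] := (ZMod.natCast_eq_natCast_iff l 1 _).1 hl3
  have h5 : l ≡ 1 [MOD 2 ^ (K + 3)] := h4.of_dvd (Dvd.intro _ rfl)
  have h6 : l ≡ 1 [MOD 15] := h4.of_dvd (Dvd.intro_left _ rfl)
  have hM : M < l := lt_of_le_of_lt (le_max_left _ _) hl1
  have hbig : 10000 < l := lt_of_le_of_lt (le_max_right _ _) hl1
  have h8 : l % 4 = 1 := by
    have h7 : l ≡ 1 [MOD 4] := h5.of_dvd (by
      have := pow_dvd_pow 2 (show 2 ≤ K + 3 by omega)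
      norm_num at this
      exact this)
    exact h7
  have g3 : l % 3 = 1 := h6.of_dvd (show 3 ∣ 15 by norm_num)
  have g5 : l % 5 = 1 := h6.of_dvd (show 5 ∣ 15 by norm_num)
  refine ⟨l, hM, ⟨hl2, h8, g3, g5, hbig⟩, ?_⟩
  clear h8 g3 g5 h6 h4 hl3 hl1 hu hq
  intro n hn2 hnN e v hv he
  obtain ⟨c, hc2⟩ : ∃ c, l = 1 + 2 ^ K * c := by
    have h7 : 1 ≡ l [MOD 2 ^ K] := (h5.of_dvd (pow_dvd_pow 2 (by omega))).symm
    obtain ⟨c, hc⟩ := (Nat.modEq_iff_dvd' (by omega : 1 ≤ l)).1 h7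
    exact ⟨c, by omega⟩
  have hX : 2 * (4 * l) + 2 * n - 2 - v = (8 + 2 * n - 2 - v) + 2 ^ K * (8 * c) := by
    rw [hc2]
    have e1 : 2 * (4 * (1 + 2 ^ K * c)) = 8 + 2 ^ K * (8 * c) := by ring
    rw [e1]
    omega
  rw [hX] at he
  have hY1 : 1 ≤ 8 + 2 * n - 2 - v := by omega
  have hY2 : 8 + 2 * n - 2 - v ≤ K := by omega
  have hK2 : K < 2 ^ K := Nat.lt_two_pow_self
  rcases le_or_gt e K with heK | heK
  · have h1 : 2 ^ e ∣ 2 ^ K * (8 * c) := Dvd.dvd.mul_right (pow_dvd_pow 2 heK) _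
    have h2 : 2 ^ e ∣ 8 + 2 * n - 2 - v := (Nat.dvd_add_left h1).1 he
    have h3 := Nat.le_of_dvd hY1 h2
    rw [← hK]
    exact h3.trans hY2
  · exfalso
    have h0 : 2 ^ K ∣ 8 + 2 * n - 2 - v + 2 ^ K * (8 * c) :=
      (pow_dvd_pow 2 heK.le).trans he
    have h2 : 2 ^ K ∣ 8 + 2 * n - 2 - v := (Nat.dvd_add_left (Dvd.intro _ rfl)).1 h0
    have h3 := Nat.le_of_dvd hY1 h2
    exact absurd (h3.trans hY2) (not_le.2 hK2)

end Pool.Agent.Helper22.HM
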