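import Pool.Agent.Helper22.HM.Tri8
import Pool.Agent.Helper22.HB.Upper

/-!
MP_143e28_ag, project HM (helper22): one pole only, of order `8 l + 1`, `l` odd: at most 8 parabolic elements.

Copy the proof of `triv` in `Helper22/HB/Triv.lean` (and its private lemma `Triv_sub_poly`): `T ∞ = P`; `r = sub T (rf A B)` is a polynomial of degree `8 l + 1`; an element `s = mact M` of `uni (grp A B) P` gives `N = T⁻¹ M T`, which
is `z ↦ z + v`, `v = N 0 1 / N 1 1` (`v = 0` if `s = 1`), with `r (X + v) = r + u ^ 2 + u`: `v` is a root of the polynomial `R` of `tri8`.  `s` is determined by `v` (`mact N` is determined by `v`): an injective map from `uni (grp A B) P` to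
the roots of `R`, at most 8 (`Polynomial.card_roots'`).
-/

set_option autoImplicit false

namespace Pool.Agent.Helper22.HM

open Polynomial OnePoint Pool.Agent.Helper28.HA Pool.Agent.Helper22.HB

variable {k : Type*} [Field k]

/-- `sub T f` is a polynomial of degree `m` if the only pole of `f` is `T ∞` -/
private theorem Uni8_only [IsAlgClosed k] [CharP k 2] {A B : k[X]} (hc : IsCoprime A B)
    (hB : B ≠ 0) {m : ℕ} {P : OnePoint k} (hP : pol A B P = m)
    (hP' : ∀ Q, Q ≠ P → pol A B Q = 0) (T : GL (Fin 2) k) (hT : mact T ∞ = P) :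
    ∃ p : k[X], sub T (rf A B) = algebraMap k[X] (RatFunc k) p ∧ p.natDegree = m := by
  set F := sub T (rf A B) with hF
  have hFr : rf F.num F.denom = F := RatFunc.num_div_denom F
  have hcop : IsCoprime F.num F.denom := RatFunc.isCoprime_num_denom F
  have hden : F.denom ≠ 0 := RatFunc.denom_ne_zero F
  have hpol : ∀ S : GL (Fin 2) k, pol F.num F.denom (mact S ∞) = pol A B (mact T (mact S ∞)) := by
    intro S
    have h1 := pol_eq hcop hden S
    have h2 := pol_eq hc hB (T * S)
    rw [hFr, hF, HB.sub_sub] at h1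
    rw [map_mul, Equiv.Perm.mul_apply] at h2
    have h3 : (pol F.num F.denom (mact S ∞) : ℤ) = pol A B (mact T (mact S ∞)) := h1.trans h2.symm
    exact_mod_cast h3
  have hroot : F.denom.degree = 0 := by
    by_contra hd
    obtain ⟨a, ha⟩ := IsAlgClosed.exists_root F.denom hd
    obtain ⟨S, hS⟩ := exists_move (a : OnePoint k)
    have h1 := hpol S
    rw [hS] at h1
    have h2 : mact T (a : OnePoint k) ≠ P := by
      rw [← hT]
      intro h3
      exact OnePoint.coe_ne_infty a ((mact T).injective h3)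
    rw [hP' _ h2] at h1
    have h3 : 0 < F.denom.rootMultiplicity a := (rootMultiplicity_pos hden).2 ha
    have h4 : pol F.num F.denom (a : OnePoint k) = F.denom.rootMultiplicity a := rfl
    omega
  have hone : F.denom = 1 := by
    have h1 := eq_C_of_degree_eq_zero hroot
    have h2 := RatFunc.monic_denom F
    rw [Monic, h1, leadingCoeff_C] at h2
    rw [h1, h2, map_one]
  refine ⟨F.num, ?_, ?_⟩
  · have h1 := RatFunc.num_div_denom F
    rw [hone, map_one, div_one] at h1
    exact h1.symm
  · have h1 := hpol 1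
    rw [map_one, Equiv.Perm.one_apply, hT, hP] at h1
    have h2 : pol F.num F.denom (∞ : OnePoint k) = F.num.natDegree - F.denom.natDegree := rfl
    rw [h2, hone, natDegree_one, Nat.sub_zero] at h1
    exact h1

/-- the translation `X ↦ X + v` -/
private noncomputable def Uni8_tr (v : k) : GL (Fin 2) k :=
  Matrix.GeneralLinearGroup.mkOfDetNeZero !![1, v; 0, 1]
    (by rw [Matrix.det_fin_two_of]; simp)

private theorem Uni8_tr_some (v z : k) : mact (Uni8_tr v) (z : OnePoint k) = ((z + v : k) : OnePoint k) := by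
  have h00 : (Uni8_tr v) 0 0 = 1 := rfl
  have h01 : (Uni8_tr v) 0 1 = v := rfl
  have h10 : (Uni8_tr v) 1 0 = 0 := rfl
  have h11 : (Uni8_tr v) 1 1 = 1 := rfl
  rw [mact_some _ _ (by rw [h10, h11]; simp), h00, h01, h10, h11]
  simp

private theorem Uni8_tr_inf (v : k) : mact (Uni8_tr v) (∞ : OnePoint k) = ∞ :=
  mact_infty_zero _ rfl

private theorem Uni8_V (p : k[X]) {R : k[X]} (hR0 : R ≠ 0) (hR8 : R.natDegree ≤ 8)
    (hR : ∀ (v : k) (u : RatFunc k),
      algebraMap k[X] (RatFunc k) (p.comp (X + C v)) = algebraMap k[X] (RatFunc k) p + u ^ 2 + u →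
      R.eval v = 0) :
    {v : k | ∃ u : RatFunc k, algebraMap k[X] (RatFunc k) (p.comp (X + C v)) =
      algebraMap k[X] (RatFunc k) p + u ^ 2 + u}.Finite ∧
    Set.ncard {v : k | ∃ u : RatFunc k, algebraMap k[X] (RatFunc k) (p.comp (X + C v)) =
      algebraMap k[X] (RatFunc k) p + u ^ 2 + u} ≤ 8 := by
  classical
  have hsub : {v : k | ∃ u : RatFunc k, algebraMap k[X] (RatFunc k) (p.comp (X + C v)) =
      algebraMap k[X] (RatFunc k) p + u ^ 2 + u} ⊆ (R.roots.toFinset : Set k) := by
    rintro v ⟨u, hu⟩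
    rw [Finset.mem_coe, Multiset.mem_toFinset, mem_roots hR0, IsRoot.def]
    exact hR v u hu
  refine ⟨(Finset.finite_toSet _).subset hsub, ?_⟩
  refine (Set.ncard_le_ncard hsub (Finset.finite_toSet _)).trans ?_
  rw [Set.ncard_coe_finset]
  exact (Multiset.toFinset_card_le _).trans ((card_roots' _).trans hR8)

theorem uni8 {k : Type*} [Field k] [IsAlgClosed k] [CharP k 2] {A B : k[X]} (hc : IsCoprime A B)
    (hB : B ≠ 0) {l : ℕ} (hl : Odd l) (hl3 : 3 ≤ l) {P : OnePoint k} (hP : pol A B P = 8 * l + 1)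
    (hP' : ∀ Q, Q ≠ P → pol A B Q = 0) : Nat.card (uni (grp A B) P) ≤ 8 := by
  obtain ⟨T, hT⟩ := exists_move P
  obtain ⟨p, hp1, hp2⟩ := Uni8_only hc hB hP hP' T hT
  obtain ⟨R, hR0, hR8, hR⟩ := tri8 hl hl3 hp2
  obtain ⟨hV1, hV2⟩ := Uni8_V p hR0 hR8 hR
  set V : Set k := {v : k | ∃ u : RatFunc k, algebraMap k[X] (RatFunc k) (p.comp (X + C v)) =
      algebraMap k[X] (RatFunc k) p + u ^ 2 + u} with hV
  have hsub : uni (grp A B) P ⊆
      (fun v => mact T * mact (Uni8_tr v) * (mact T)⁻¹) '' V := by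
    rintro s ⟨hs, hs'⟩
    obtain ⟨M, hM, u, hu⟩ := mem_grp.1 hs
    have hsP : s P = P := by
      rcases hs' with rfl | h
      · rfl
      · exact (h P).2 rfl
    -- the conjugate
    have hN : ∃ N : GL (Fin 2) k, N = T⁻¹ * M * T := ⟨_, rfl⟩
    obtain ⟨N, hN⟩ := hN
    have hNm : mact N = (mact T)⁻¹ * s * mact T := by
      rw [hN, map_mul, map_mul, map_inv, hM]
    have hNinf : mact N ∞ = ∞ := by
      rw [hNm, Equiv.Perm.mul_apply, Equiv.Perm.mul_apply, hT, hsP, Equiv.Perm.inv_eq_iff_eq]
      exact hT.symm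
    have hN10 : N 1 0 = 0 := by
      by_contra h0
      rw [mact_infty N h0] at hNinf
      exact OnePoint.coe_ne_infty _ hNinf
    have hdet : N 0 0 * N 1 1 ≠ 0 := by
      have h := N.det_ne_zero
      rw [Matrix.det_fin_two, hN10, mul_zero, sub_zero] at h
      exact h
    have hN11 : N 1 1 ≠ 0 := right_ne_zero_of_mul hdet
    have hN00 : N 0 0 ≠ 0 := left_ne_zero_of_mul hdet
    have hNsome : ∀ z : k, mact N (z : OnePoint k) = (((N 0 0 * z + N 0 1) / N 1 1 : k) : OnePoint k) := by
      intro z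
      rw [mact_some N z (by rw [hN10, zero_mul, zero_add]; exact hN11), hN10, zero_mul, zero_add]
    have heq : N 0 0 = N 1 1 := by
      by_contra hne
      have hne' : N 1 1 - N 0 0 ≠ 0 := sub_ne_zero.2 (Ne.symm hne)
      rcases hs' with h1 | h1
      · rw [h1, mul_one, inv_mul_cancel] at hNm
        have h2 := hNsome 0
        have h3 := hNsome 1
        rw [hNm, Equiv.Perm.one_apply, OnePoint.coe_eq_coe] at h2 h3
        rw [eq_div_iff hN11] at h2 h3
        apply hne
        linear_combination h2 - h3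
      · -- a second fixed point
        have h2 : mact N ((N 0 1 / (N 1 1 - N 0 0) : k) : OnePoint k) =
            ((N 0 1 / (N 1 1 - N 0 0) : k) : OnePoint k) := by
          rw [hNsome, OnePoint.coe_eq_coe, div_eq_iff hN11]
          field_simp
          ring
        rw [hNm, Equiv.Perm.mul_apply, Equiv.Perm.mul_apply, Equiv.Perm.inv_eq_iff_eq, h1, ← hT] at h2
        exact OnePoint.coe_ne_infty _ ((mact T).injective h2)
    -- the translation
    have htr : mact N = mact (Uni8_tr (N 0 1 / N 1 1)) := by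
      ext x
      induction x using OnePoint.rec with
      | infty => rw [hNinf, Uni8_tr_inf]
      | coe z =>
        rw [hNsome, Uni8_tr_some, OnePoint.coe_eq_coe, heq]
        field_simp
    refine ⟨N 0 1 / N 1 1, ?_, ?_⟩
    · refine ⟨sub T u, ?_⟩
      have h1 := congrArg (sub T) hu
      rw [HB.sub_sub, map_add, map_add, map_pow, hp1] at h1
      have h2 : M * T = T * N := by rw [hN]; group
      rw [h2, ← HB.sub_sub, hp1, emb_poly, sub_X, hN10] at h1
      rw [← h1]
      have h3 : (RatFunc.C (N 0 0) * RatFunc.X + RatFunc.C (N 0 1)) /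
          (RatFunc.C 0 * RatFunc.X + RatFunc.C (N 1 1)) =
          algebraMap k[X] (RatFunc k) (X + C (N 0 1 / N 1 1)) := by
        rw [heq, map_zero, zero_mul, zero_add, map_add, RatFunc.algebraMap_X, RatFunc.algebraMap_C,
          map_div₀]
        have h4 : RatFunc.C (N 1 1) ≠ (0 : RatFunc k) := (_root_.map_ne_zero _).2 hN11
        field_simp
      rw [h3, Polynomial.aeval_algebraMap_apply]
      rfl
    · change mact T * mact (Uni8_tr (N 0 1 / N 1 1)) * (mact T)⁻¹ = s
      rw [← htr, hNm]
      group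
  have h1 := (Set.ncard_le_ncard hsub (hV1.image _)).trans (Set.ncard_image_le hV1)
  exact h1.trans hV2

end Pool.Agent.Helper22.HM
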