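import Pool.Agent.Helper22.HM.HypM
import Pool.Agent.Helper22.HM.Uni8
import Pool.Agent.Helper22.HM.SpecM
import Pool.Agent.Helper22.HE.HypU
import Pool.Agent.Helper22.HE.Bridge
import Pool.Agent.Helper22.HB.Fin

/-!
MP_143e28_ag, project HM (helper22): hyperelliptic curves of genus `4 l` in characteristic 2 have at most `4 g + 4` automorphisms.

`upperM`: as `grp_bound2` and `upperH` in `Helper22/HE/HypU.lean` (copy the private lemma `HypU_single`): `grp_fin` gives the finiteness of `grp A B`; `group_boundM` with `m = pol A B`, `g = 4 l` (`grp_pol`, `pol_fin`, `grp_tame`; `hc`: the only pole has order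
`2 g + 1 = 8 l + 1`: `uni8`); the second alternative is impossible by `no_qM`; `auto_group2`: `#Aut ≤ 2 #grp`.  Finiteness of `Aut`: `fin_all` (`Helper22/HB/Fin.lean`).
`hyp_of_E`: `s = 1`: `y ^ 2 - y = f (x)`, `f` a polynomial of odd degree `2 g + 1`: `Pres2 k F g x y f 1` (as in `exists_pres2`, `Helper22/HB/Ex.lean`: the only pole is `∞`; `y ^ 2 - y = y ^ 2 + y`).  `s ≥ 2`: `q = 2 ^ s ≥ 4`, `(q - 1) (deg f - 1) = 2 (4 l)`: `no_qM`.
-/

set_option autoImplicit false

namespace Pool.Agent.Helper22.HM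

open Polynomial OnePoint Pool.Agent.Helper28.HA Pool.Agent.Helper22.HB Pool.Agent.Helper22.HE Pool.Agent.Helper22.HL

private theorem HypMU_single {k : Type*} (m : OnePoint k → ℕ) {N : ℕ}
    (hsum : ∑ᶠ P : OnePoint k, (if m P = 0 then 0 else m P + 1) = N) {P : OnePoint k}
    (hP : m P ≠ 0) (h : ∀ Q, m Q ≠ 0 → Q = P) : m P + 1 = N := by
  rw [finsum_eq_single _ P] at hsum
  · rw [if_neg hP] at hsum
    exact hsum
  · intro Q hQ
    by_cases h0 : m Q = 0
    · rw [if_pos h0]
    · exact absurd (h Q h0) hQ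

theorem upperM {k F : Type*} [Field k] [IsAlgClosed k] [CharP k 2] [Field F] [Algebra k F] {l : ℕ}
    (hl : SpM l) (h : IsHyp2 k F (4 * l)) :
    Finite (F ≃ₐ[k] F) ∧ Nat.card (F ≃ₐ[k] F) ≤ 4 * (4 * l) + 4 := by
  have hl0 := hl
  obtain ⟨hp, hl4, hl3, hl5, hbig⟩ := hl
  have hg2 : 2 ≤ 4 * l := by omega
  refine ⟨(fin_all hg2 h).1, ?_⟩
  obtain ⟨x, y, A, B, h⟩ := h
  obtain ⟨h1, -⟩ := grp_fin h.cop h.ne h.odd hg2 h.genus
  obtain ⟨-, h4⟩ := auto_group2 hg2 h h1
  have h5 := group_boundM (grp A B) h1 (grp_mob A B) (pol A B)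
    (fun s hs P => grp_pol h.cop h.ne h.odd hs P) (pol_fin h.ne) (g := 4 * l) (by omega) h.odd
    h.genus (fun P hP => grp_tame h.cop h.ne h.odd P hP) (by
      intro P hP honly
      have hmP : pol A B P = 8 * l + 1 := by
        have := HypMU_single _ h.genus hP honly
        omega
      refine uni8 h.cop h.ne (Nat.odd_iff.2 (by omega)) (by omega) hmP ?_
      intro Q hQ
      by_contra h0
      exact hQ (honly Q h0))
  rcases h5 with h5 | ⟨q, c, j, h6, h7, h8⟩
  · omega
  · exact (no_qM hl0 h6 h7 h8).elim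

theorem hyp_of_E {k F : Type*} [Field k] [IsAlgClosed k] [CharP k 2] [Field F] [Algebra k F] {l : ℕ}
    (hl : SpM l) {s : ℕ} {x y : F} {f : k[X]} (h : PresE k F 2 s (4 * l) x y f) :
    IsHyp2 k F (4 * l) := by
  have hs := h.pos
  rcases Nat.lt_or_ge 1 s with h2 | h1
  · exfalso
    have hq : 4 ≤ 2 ^ s := by
      calc 4 = 2 ^ 2 := by norm_num
        _ ≤ 2 ^ s := Nat.pow_le_pow_right (by norm_num) h2
    exact no_qM hl hq rfl h.genus.symm
  obtain rfl : s = 1 := by omega
  have hg := h.genus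
  have hbig := hl.2.2.2.2
  have hd : f.natDegree = 8 * l + 1 := by
    rw [pow_one] at hg
    omega
  have hinf : pol f 1 (∞ : OnePoint k) = 8 * l + 1 := by
    show f.natDegree - (1 : k[X]).natDegree = 8 * l + 1
    rw [hd]
    simp
  have hfin : ∀ a : k, pol f 1 (a : OnePoint k) = 0 := by
    intro a
    show (1 : k[X]).rootMultiplicity a = 0
    rw [rootMultiplicity_eq_zero]
    simp
  refine ⟨x, y, f, 1, ⟨h.trans, h.gen, isCoprime_one_right, one_ne_zero, ?_, ?_, ?_⟩⟩
  · intro P hP
    induction P using OnePoint.rec with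
    | infty =>
      rw [hinf]
      exact Nat.odd_iff.2 (by omega)
    | coe a => exact absurd (hfin a) hP
  · rw [finsum_eq_single _ ∞]
    · rw [hinf, if_neg (by omega)]
      omega
    · intro P hP
      induction P using OnePoint.rec with
      | infty => exact absurd rfl hP
      | coe a => simp [hfin a]
  · rw [map_one, one_mul, ← h.eqn, pow_one]
    have h2 := Bridge_two (k := k) F
    linear_combination y * h2

end Pool.Agent.Helper22.HM
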