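import Mathlib

/-!
MP_143e28_ag, project HM (helper22): a polynomial `p` of degree `8 l + 1`, `l` odd, in characteristic 2: at most 8 numbers `v` with `p (X + v) = p (X) + u ^ 2 + u`.

As `triv_aux` in `Helper22/HB/Triv.lean`: `u` is a polynomial of degree `≤ 4 l`, so the coefficient of `X ^ (8 l - 7)` in
`u ^ 2 + u` is `0` (`8 l - 7` is odd and `> 4 l`).  In `p (X + v)` it is the value at `v` of the Hasse derivative of order
`8 l - 7` of `p`, a polynomial in `v` of degree at most 8 whose coefficient of degree 8 is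
`choose (8 l + 1) (8 l - 7) = l` modulo 2 (Lucas) times the leading coefficient of `p`.
-/

set_option autoImplicit false

namespace Pool.Agent.Helper22.HM

open Polynomial

private theorem Tri8_sq_coeff {k : Type*} [Field k] [CharP k 2] (w : k[X]) {n : ℕ} (hn : ¬ 2 ∣ n) :
    (w ^ 2).coeff n = 0 := by
  haveI : Fact (Nat.Prime 2) := ⟨Nat.prime_two⟩
  have h1 := Polynomial.map_frobenius_expand 2 w
  rw [← h1, Polynomial.coeff_map, Polynomial.coeff_expand (by norm_num : 0 < 2), if_neg hn, map_zero]

private theorem Tri8_int {k : Type*} [Field k] {q : k[X]} {u : RatFunc k}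
    (h : u ^ 2 + u = algebraMap k[X] (RatFunc k) q) :
    ∃ w : k[X], algebraMap k[X] (RatFunc k) w = u := by
  have h1 : IsIntegral k[X] u := by
    refine ⟨X ^ 2 + X - C q, ?_, ?_⟩
    · have : (X ^ 2 + X - C q : k[X][X]) = X ^ 2 + (X - C q) := by ring
      rw [this]
      apply Polynomial.monic_X_pow_add
      exact lt_of_le_of_lt (Polynomial.degree_X_sub_C_le q) (by norm_num)
    · simp only [eval₂_sub, eval₂_add, eval₂_pow, eval₂_X, eval₂_C]
      rw [h, sub_self]
  exact IsIntegrallyClosed.isIntegral_iff.mp h1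

private theorem Tri8_deg {k : Type*} [Field k] {w q : k[X]} {g : ℕ} (h : w ^ 2 + w = q)
    (hq : q.natDegree ≤ 2 * g) : w.natDegree ≤ g := by
  by_contra hcon
  rw [not_le] at hcon
  have h1 : w.natDegree < (w ^ 2).natDegree := by
    rw [Polynomial.natDegree_pow]
    omega
  have h2 : (w ^ 2 + w).natDegree = (w ^ 2).natDegree :=
    Polynomial.natDegree_add_eq_left_of_natDegree_lt h1
  rw [h, Polynomial.natDegree_pow] at h2
  omega

private theorem Tri8_choose {l : ℕ} (hl : Odd l) (hl3 : 3 ≤ l) :
    Odd ((8 * l + 1).choose (8 * l - 7)) := by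
  haveI : Fact (Nat.Prime 2) := ⟨Nat.prime_two⟩
  have hs : (8 * l + 1).choose (8 * l - 7) = (8 * l + 1).choose 8 := by
    have h := Nat.choose_symm (n := 8 * l + 1) (k := 8) (by omega)
    have e : 8 * l + 1 - 8 = 8 * l - 7 := by omega
    rw [e] at h
    exact h
  rw [hs]
  have h1 := Choose.choose_modEq_choose_mod_mul_choose_div_nat (p := 2) (n := 8 * l + 1) (k := 8)
  have h2 := Choose.choose_modEq_choose_mod_mul_choose_div_nat (p := 2) (n := 4 * l) (k := 4)
  have h3 := Choose.choose_modEq_choose_mod_mul_choose_div_nat (p := 2) (n := 2 * l) (k := 2)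
  have a1 : (8 * l + 1) / 2 = 4 * l := by omega
  have a2 : 4 * l / 2 = 2 * l := by omega
  have a3 : 2 * l / 2 = l := by omega
  have b2 : 4 * l % 2 = 0 := by omega
  have b3 : 2 * l % 2 = 0 := by omega
  rw [a1] at h1
  rw [a2, b2] at h2
  rw [a3, b3] at h3
  norm_num at h1 h2 h3
  have h4 : (8 * l + 1).choose 8 ≡ l [MOD 2] := h1.trans (h2.trans h3)
  rw [Nat.odd_iff] at hl ⊢
  unfold Nat.ModEq at h4
  omega

theorem tri8 {k : Type*} [Field k] [CharP k 2] {l : ℕ} (hl : Odd l) (hl3 : 3 ≤ l) {p : k[X]}
    (hp : p.natDegree = 8 * l + 1) :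
    ∃ R : k[X], R ≠ 0 ∧ R.natDegree ≤ 8 ∧ ∀ (v : k) (u : RatFunc k),
      algebraMap k[X] (RatFunc k) (p.comp (X + C v)) = algebraMap k[X] (RatFunc k) p + u ^ 2 + u →
      R.eval v = 0 := by
  have hp0 : p ≠ 0 := by
    rintro rfl
    rw [natDegree_zero] at hp
    omega
  have h2k : (2 : k) = 0 := CharTwo.two_eq_zero
  refine ⟨hasseDeriv (8 * l - 7) p - C (p.coeff (8 * l - 7)), ?_, ?_, ?_⟩
  · intro h0
    have h1 := congrArg (fun q : k[X] => q.coeff 8) h0
    simp only [coeff_sub, coeff_zero] at h1
    rw [Polynomial.hasseDeriv_coeff, Polynomial.coeff_C, if_neg (by norm_num), sub_zero] at h1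
    have e : 8 + (8 * l - 7) = 8 * l + 1 := by omega
    rw [e] at h1
    obtain ⟨m, hm⟩ := Tri8_choose hl hl3
    rw [hm] at h1
    push_cast at h1
    rw [h2k, zero_mul, zero_add, one_mul] at h1
    have h7 : p.coeff (8 * l + 1) ≠ 0 := by
      rw [← hp]
      exact Polynomial.leadingCoeff_ne_zero.mpr hp0
    exact h7 h1
  · refine (Polynomial.natDegree_sub_le _ _).trans (max_le ?_ ?_)
    · have h3 := Polynomial.natDegree_hasseDeriv_le p (8 * l - 7)
      omega
    · rw [Polynomial.natDegree_C]
      exact Nat.zero_le _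
  · intro v u h
    rw [Polynomial.eval_sub, Polynomial.eval_C]
    have h1 : u ^ 2 + u = algebraMap k[X] (RatFunc k) (p.comp (X + C v) - p) := by
      rw [map_sub, h]
      ring
    obtain ⟨w, rfl⟩ := Tri8_int h1
    have h2 : w ^ 2 + w = p.comp (X + C v) - p := by
      apply RatFunc.algebraMap_injective k
      rw [← h1, map_add, map_pow]
    have hdeg : (p.comp (X + C v) - p).natDegree ≤ 2 * (4 * l) := by
      have h3 : (p.comp (X + C v) - p).degree < (p.comp (X + C v)).degree := by
        apply Polynomial.degree_sub_lt_left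
        · rw [← Polynomial.taylor_apply, Polynomial.degree_taylor]
        · rw [← Polynomial.taylor_apply]
          intro h4
          exact hp0 ((Polynomial.taylor_injective v) (by rw [h4, map_zero]))
        · rw [← Polynomial.taylor_apply, Polynomial.leadingCoeff_taylor]
      rw [← Polynomial.taylor_apply, Polynomial.degree_taylor,
        Polynomial.degree_eq_natDegree hp0, hp] at h3
      rw [← Polynomial.taylor_apply]
      by_cases h4 : Polynomial.taylor v p - p = 0
      · rw [h4, natDegree_zero]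
        omega
      · rw [Polynomial.degree_eq_natDegree h4] at h3
        have h5 : (Polynomial.taylor v p - p).natDegree < 8 * l + 1 := by exact_mod_cast h3
        omega
    have hw := Tri8_deg h2 hdeg
    have h5 := congrArg (fun q : k[X] => q.coeff (8 * l - 7)) h2
    simp only [coeff_add, coeff_sub] at h5
    rw [Tri8_sq_coeff w (by omega),
      Polynomial.coeff_eq_zero_of_natDegree_lt (by omega : w.natDegree < 8 * l - 7),
      ← Polynomial.taylor_apply, Polynomial.taylor_coeff, add_zero] at h5
    exact h5.symm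

end Pool.Agent.Helper22.HM
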